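import Pool.Agent.W318.LocalMin

namespace Pool.Agent.Y678.SZ

open Polynomial Pool.Agent.W318

section

variable {k : Type*} [Field k]

/-- The trinomial `a x^(2n) + b x^n + c`. -/
noncomputable def tri (n : ℕ) (a b c : k) : k[X] := C a * X ^ (n + n) + C b * X ^ n + C c

theorem natDegree_tri {n : ℕ} (hn : 1 ≤ n) {a b c : k} (ha : a ≠ 0) :
    (tri n a b c).natDegree = n + n := by
  unfold tri
  have h1 : (C b * X ^ n + C c : k[X]).natDegree ≤ n := by
    refine (natDegree_add_le _ _).trans (max_le ?_ ?_)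
    · exact natDegree_C_mul_X_pow_le b n
    · simp
  rw [add_assoc, natDegree_add_eq_left_of_natDegree_lt]
  · exact natDegree_C_mul_X_pow _ _ ha
  · rw [natDegree_C_mul_X_pow _ _ ha]
    omega

theorem leadingCoeff_tri {n : ℕ} (hn : 1 ≤ n) {a b c : k} (ha : a ≠ 0) :
    (tri n a b c).leadingCoeff = a := by
  rw [leadingCoeff, natDegree_tri hn ha, tri]
  have e1 : n + n ≠ n := by omega
  have e2 : n + n ≠ 0 := by omega
  rw [coeff_add, coeff_add, coeff_C_mul, coeff_C_mul, coeff_X_pow, coeff_X_pow, coeff_C,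
    if_pos rfl, if_neg e1, if_neg e2]
  ring

theorem coeff_zero_tri {n : ℕ} (hn : 1 ≤ n) {a b c : k} : (tri n a b c).coeff 0 = c := by
  have e1 : 0 ≠ n + n := by omega
  have e2 : (0 : ℕ) ≠ n := by omega
  rw [tri, coeff_add, coeff_add, coeff_C_mul, coeff_C_mul, coeff_X_pow, coeff_X_pow, coeff_C,
    if_neg e1, if_neg e2, if_pos rfl]
  ring

theorem derivative_tri {n : ℕ} (hn : 1 ≤ n) (a b c : k) :
    (tri n a b c).derivative =
      C (n : k) * (X ^ (n - 1) * (C (2 * a) * X ^ n + C b)) := by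
  obtain ⟨m, rfl⟩ : ∃ m, n = m + 1 := ⟨n - 1, by omega⟩
  unfold tri
  have e1 : m + 1 + (m + 1) - 1 = m + (m + 1) := by omega
  simp only [derivative_add, derivative_C_mul, derivative_X_pow, derivative_C, add_zero, e1,
    Nat.add_sub_cancel]
  push_cast
  simp only [C_add, C_mul, C_1, map_natCast, map_ofNat, pow_add]
  ring

theorem discr_tri [CharZero k] {n : ℕ} (hn : 1 ≤ n) {a b c : k} (ha : a ≠ 0) :
    ∃ s : ℕ, (tri n a b c).discr =
      (-1) ^ s * ((n : k) ^ (n + n) * (a * c) ^ (n - 1) * (b ^ 2 - 4 * (a * c)) ^ n) := by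
  have hdeg := natDegree_tri (b := b) (c := c) hn ha
  have hlc := leadingCoeff_tri (b := b) (c := c) hn ha
  have h1 := resultant_deriv (f := tri n a b c)
    (natDegree_pos_iff_degree_pos.mp (by rw [hdeg]; omega))
  have hG : (C (2 * a) * X ^ n + C b : k[X]).natDegree = n := by
    rw [natDegree_add_C, natDegree_C_mul_X_pow _ _ (mul_ne_zero two_ne_zero ha)]
  have h2 : resultant (tri n a b c) (X ^ (n - 1) * (C (2 * a) * X ^ n + C b)) (n + n)
      (n + n - 1) = resultant (tri n a b c) (X ^ (n - 1)) (n + n) (n - 1) *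
        resultant (tri n a b c) (C (2 * a) * X ^ n + C b) (n + n) n := by
    have := resultant_mul_right (tri n a b c) (X ^ (n - 1)) (C (2 * a) * X ^ n + C b) (n + n)
      (by rw [hdeg])
    rw [hG, natDegree_X_pow] at this
    rw [← this]
    congr 1
    omega
  have h3 : resultant (tri n a b c) (C (2 * a) * X ^ n + C b) (n + n) n =
      (2 * a) ^ (n + n) * (c - b ^ 2 / (4 * a)) ^ n := by
    have e : tri n a b c = C (c - b ^ 2 / (4 * a)) +
        (C (2 * a) * X ^ n + C b) * (C (1 / 2) * X ^ n + C (b / (4 * a))) := by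
      have e1 : C (2 * a) * C (1 / 2) = (C a : k[X]) := by
        rw [← C_mul]; congr 1; field_simp
      have e2 : C (2 * a) * C (b / (4 * a)) + C b * C (1 / 2) = (C b : k[X]) := by
        rw [← C_mul, ← C_mul, ← C_add]; congr 1; field_simp; ring
      have e3 : C (c - b ^ 2 / (4 * a)) + C b * C (b / (4 * a)) = (C c : k[X]) := by
        rw [← C_mul, ← C_add]; congr 1; field_simp; ring
      calc tri n a b c = C a * X ^ (n + n) + C b * X ^ n + C c := rfl
        _ = (C (2 * a) * C (1 / 2)) * X ^ (n + n) + (C (2 * a) * C (b / (4 * a)) +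
            C b * C (1 / 2)) * X ^ n + (C (c - b ^ 2 / (4 * a)) + C b * C (b / (4 * a))) := by
            rw [e1, e2, e3]
        _ = _ := by ring
    have hP : (C (1 / 2) * X ^ n + C (b / (4 * a)) : k[X]).natDegree + n ≤ n + n := by
      have : (C (1 / 2) * X ^ n + C (b / (4 * a)) : k[X]).natDegree ≤ n := by
        rw [natDegree_add_C]
        exact natDegree_C_mul_X_pow_le _ _
      omega
    rw [e, resultant_add_mul_left _ _ _ _ _ hP hG.le, resultant_C_left]
    have hc : (C (2 * a) * X ^ n + C b : k[X]).coeff n = 2 * a := by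
      rw [coeff_add, coeff_C_mul, coeff_X_pow_self, coeff_C, if_neg (by omega)]
      ring
    rw [hc, Even.neg_one_pow (by
      rw [show (n + n) * n = n * n + n * n by ring]; exact ⟨n * n, rfl⟩)]
    ring
  rw [derivative_tri hn, hdeg, resultant_C_mul_right, h2, h3, hlc,
    resultant_X_pow_right _ _ _ (by rw [hdeg]), coeff_zero_tri hn] at h1
  have h4 : (2 * a) ^ (n + n) * (c - b ^ 2 / (4 * a)) ^ n =
      a * (a ^ (n - 1) * ((-1) ^ n * (b ^ 2 - 4 * (a * c)) ^ n)) := by
    have e1 : a * (a ^ (n - 1) * ((-1) ^ n * (b ^ 2 - 4 * (a * c)) ^ n)) =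
        (a * (-1 * (b ^ 2 - 4 * (a * c)))) ^ n := by
      rw [mul_pow, mul_pow]
      have : a ^ n = a * a ^ (n - 1) := by
        rw [← pow_succ']; congr 1; omega
      rw [this]; ring
    have e2 : (2 * a) ^ (n + n) * (c - b ^ 2 / (4 * a)) ^ n =
        ((2 * a) ^ 2 * (c - b ^ 2 / (4 * a))) ^ n := by
      rw [mul_pow ((2 * a) ^ 2), ← pow_mul]
      congr 2
      omega
    rw [e1, e2]
    congr 1
    field_simp
    ring
  rw [h4] at h1
  set s := (n + n) * (n + n - 1) / 2 with hs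
  refine ⟨s + ((n + n) * (n - 1) + n), ?_⟩
  have hs2 : ((-1 : k)) ^ s * (-1) ^ s = 1 := by
    rw [← mul_pow]; simp
  have h5 : a * (tri n a b c).discr = a * ((-1) ^ (s + ((n + n) * (n - 1) + n)) *
      ((n : k) ^ (n + n) * (a * c) ^ (n - 1) * (b ^ 2 - 4 * (a * c)) ^ n)) := by
    calc a * (tri n a b c).discr = ((-1) ^ s * (-1) ^ s) * (a * (tri n a b c).discr) := by
          rw [hs2, one_mul]
      _ = (-1) ^ s * ((-1) ^ s * a * (tri n a b c).discr) := by ring
      _ = _ := by
        rw [← h1, pow_add, pow_add, mul_pow]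
        ring
  exact mul_left_cancel₀ ha h5

theorem squarefree_tri [CharZero k] {n : ℕ} (hn : 1 ≤ n) {a b c : k} (ha : a ≠ 0) (hc : c ≠ 0)
    (hD : b ^ 2 - 4 * (a * c) ≠ 0) : Squarefree (tri n a b c) := by
  rw [← PerfectField.separable_iff_squarefree, Separable, derivative_tri hn]
  have hn0 : (n : k) ≠ 0 := Nat.cast_ne_zero.mpr (by omega)
  have hu : IsUnit (C (n : k) : k[X]) := isUnit_C.mpr (isUnit_iff_ne_zero.mpr hn0)
  refine (isCoprime_mul_unit_left_right hu _ _).mpr ?_
  refine IsCoprime.mul_right ?_ ?_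
  · -- coprime to `X ^ (n - 1)`
    apply IsCoprime.pow_right
    refine ⟨C (1 / c), -(C (1 / c) * (C a * X ^ (n + n - 1) + C b * X ^ (n - 1))), ?_⟩
    have e1 : (X : k[X]) ^ (n + n) = X ^ (n + n - 1) * X := by
      rw [← pow_succ]; congr 1; omega
    have e2 : (X : k[X]) ^ n = X ^ (n - 1) * X := by
      rw [← pow_succ]; congr 1; omega
    have e3 : C (1 / c) * C c = (1 : k[X]) := by
      rw [← C_mul, one_div, inv_mul_cancel₀ hc, C_1]
    unfold tri
    rw [e1]
    calc _ = C (1 / c) * C c + C (1 / c) * C b * (X ^ n - X ^ (n - 1) * X) := by ring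
      _ = 1 := by rw [e2, e3]; ring
  · refine ⟨C (-(4 * a) / (b ^ 2 - 4 * (a * c))),
      C (1 / (b ^ 2 - 4 * (a * c))) * (C (2 * a) * X ^ n + C b), ?_⟩
    set D := b ^ 2 - 4 * (a * c) with hDdef
    have e0 : (C (1 / D) * C D : k[X]) = 1 := by
      rw [← C_mul, one_div, inv_mul_cancel₀ hD, C_1]
    have e1 : (C (-(4 * a) / D) : k[X]) = C (1 / D) * (-(4 * C a)) := by
      rw [show -(4 * a) / D = (1 / D) * (-(4 * a)) by ring, C_mul, C_neg, C_mul, map_ofNat]
    have e2 : (C D : k[X]) = C b ^ 2 - 4 * (C a * C c) := by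
      rw [hDdef]; simp only [C_sub, C_pow, C_mul, map_ofNat]
    have e3 : (C (2 * a) : k[X]) = 2 * C a := by rw [C_mul, map_ofNat]
    rw [e1, e3]
    unfold tri
    calc _ = C (1 / D) * (C b ^ 2 - 4 * (C a * C c)) := by rw [pow_add]; ring
      _ = 1 := by rw [← e2, e0]

end

end Pool.Agent.Y678.SZ
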