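import Pool.Agent.Y678.SZ.Ineq
import Pool.Agent.W318.GlobalSzp

namespace Pool.Agent.Y678.SZ

open Polynomial Pool.Agent.W318 Finset NumberField IsDedekindDomain WithZero

section

variable {K : Type} [Field K] [NumberField K]

open scoped Classical in
/-- The exponent of `v` in the natural number `m`. -/
noncomputable def cnt (v : HeightOneSpectrum (𝓞 K)) (m : ℕ) : ℕ :=
  (Associates.mk v.asIdeal).count (Associates.mk (Ideal.span {(m : 𝓞 K)})).factors

theorem val_cnt (v : HeightOneSpectrum (𝓞 K)) {m : ℕ} (hm : m ≠ 0) :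
    v.valuation K (m : K) = exp (-(cnt v m : ℤ)) := by
  have e : algebraMap (𝓞 K) K (m : 𝓞 K) = (m : K) := map_natCast _ m
  rw [← e, v.valuation_of_algebraMap, v.intValuation_if_neg (Nat.cast_ne_zero.mpr hm)]
  rfl

theorem prod_cnt {m : ℕ} (hm : m ≠ 0) : ∃ S₀ : Finset (HeightOneSpectrum (𝓞 K)),
    ∀ S : Finset (HeightOneSpectrum (𝓞 K)), S₀ ⊆ S →
      ∏ v ∈ S, Ideal.absNorm v.asIdeal ^ cnt v m = m ^ Module.finrank ℚ K := by
  classical
  have hI : (Ideal.span {(m : 𝓞 K)}) ≠ 0 := by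
    rw [Ne, Ideal.zero_eq_bot, Ideal.span_singleton_eq_bot]
    exact Nat.cast_ne_zero.mpr hm
  have hfin := Ideal.hasFiniteMulSupport hI
  have hfin' : (Function.mulSupport fun v : HeightOneSpectrum (𝓞 K) =>
    v.maxPowDividing (Ideal.span {(m : 𝓞 K)})).Finite := hfin
  refine ⟨hfin'.toFinset, fun S hS => ?_⟩
  have h1 := Ideal.finprod_heightOneSpectrum_factorization hI
  rw [finprod_eq_prod_of_mulSupport_subset (s := S)] at h1
  · have h2 := congrArg Ideal.absNorm h1
    rw [map_prod, Ideal.absNorm_span_natCast, RingOfIntegers.rank] at h2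
    rw [← h2]
    refine Finset.prod_congr rfl fun v _ => ?_
    rw [HeightOneSpectrum.maxPowDividing, map_pow]
    rfl
  · intro v hv
    exact hS (by simpa using hv)

/-- The lower bound for the minimal discriminant. -/
theorem disc_lower {g : ℕ} {F : K[X]} (hF : IsHyp g F) {D C : ℕ} (hD : D ≠ 0) (hC : C ≠ 0)
    (h : ∀ v : HeightOneSpectrum (𝓞 K),
      exp (-((minExp g F v : ℕ) : ℤ)) * v.valuation K (C : K) ≤ v.valuation K (D : K)) :
    D ^ Module.finrank ℚ K ≤ C ^ Module.finrank ℚ K * discNorm g F := by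
  classical
  obtain ⟨S₁, hS₁⟩ := prod_cnt (K := K) hD
  obtain ⟨S₂, hS₂⟩ := prod_cnt (K := K) hC
  have hB := finite_bad hF
  set S := S₁ ∪ S₂ ∪ hB.toFinset with hS
  rw [← hS₁ S (by rw [hS]; intro v hv; simp [hv]), ← hS₂ S (by rw [hS]; intro v hv; simp [hv]),
    discNorm_eq S (fun v hv => by rw [hS]; simp [hv]), ← Finset.prod_mul_distrib]
  refine Finset.prod_le_prod (fun _ _ => Nat.zero_le _) fun v _ => ?_
  rw [← pow_add]
  apply Nat.pow_le_pow_right (one_le_absNorm v)
  have h1 := h v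
  rw [val_cnt v hC, val_cnt v hD, ← exp_add, exp_le_exp] at h1
  omega

/-- The upper bound for the product of the places of bad reduction. -/
theorem bad_upper {g : ℕ} {F : K[X]} (hF : IsHyp g F) {m : ℕ} (hm : m ≠ 0)
    (h : ∀ v : HeightOneSpectrum (𝓞 K), minExp g F v ≠ 0 → v.valuation K (m : K) < 1) :
    badNorm g F ≤ m ^ Module.finrank ℚ K := by
  classical
  obtain ⟨S₁, hS₁⟩ := prod_cnt (K := K) hm
  have hB := finite_bad hF
  rw [badNorm_eq hB.toFinset (fun v => by simp), ← hS₁ (S₁ ∪ hB.toFinset) subset_union_left]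
  calc ∏ v ∈ hB.toFinset, Ideal.absNorm v.asIdeal
      ≤ ∏ v ∈ hB.toFinset, Ideal.absNorm v.asIdeal ^ cnt v m := by
        refine Finset.prod_le_prod (fun _ _ => Nat.zero_le _) fun v hv => ?_
        have h1 := h v (by simpa using hv)
        rw [val_cnt v hm, ← exp_zero, exp_lt_exp] at h1
        calc Ideal.absNorm v.asIdeal = Ideal.absNorm v.asIdeal ^ 1 := (pow_one _).symm
          _ ≤ _ := Nat.pow_le_pow_right (one_le_absNorm v) (by omega)
    _ ≤ _ := Finset.prod_le_prod_of_subset_of_one_le' subset_union_right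
        fun v _ _ => Nat.one_le_pow _ _ (one_le_absNorm v)

theorem one_le_badNorm {g : ℕ} {F : K[X]} (hF : IsHyp g F) : 1 ≤ badNorm g F := by
  classical
  have hB := finite_bad hF
  rw [badNorm_eq hB.toFinset (fun v => by simp)]
  exact Nat.succ_le_of_lt (Finset.prod_pos fun v _ => one_le_absNorm v)

/-- The integral form itself is a model. -/
theorem bad_place {g : ℕ} {Y T w : ℕ} (hY : 0 < Y) (hT : 0 < T) (hw : 0 < w)
    (v : HeightOneSpectrum (𝓞 K)) (hv : minExp g (frm (g + 1) (Y : K) T w) v ≠ 0) :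
    v.valuation K ((2 * DD g Y T w : ℕ) : K) < 1 := by
  have hF := isHyp_frm (K := K) (g := g) hY hT hw
  by_contra hcon
  have h1 : v.valuation K ((2 * DD g Y T w : ℕ) : K) = 1 :=
    le_antisymm (val_nat_le_one v _) (not_lt.mp hcon)
  rw [Nat.cast_mul, map_mul] at h1
  have h2 : v.valuation K ((2 : ℕ) : K) = 1 := by
    refine le_antisymm (val_nat_le_one v _) ?_
    rw [← h1]
    exact mul_le_of_le_one_right' (val_nat_le_one v _)
  have h3 : v.valuation K ((DD g Y T w : ℕ) : K) = 1 := by rwa [h2, one_mul] at h1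
  have hd : (frm (g + 1) (Y : K) T w).natDegree ≤ g + 1 + (g + 1) := by have := hF.2; omega
  have hint : ∀ i, v.valuation K ((frm (g + 1) (Y : K) T w).coeff i) ≤ 1 := by
    intro i
    have : ∃ z : ℕ, (frm (g + 1) (Y : K) T w).coeff i = (z : K) := by
      rw [frm, tri]
      simp only [coeff_add, coeff_C_mul, coeff_X_pow, coeff_C]
      refine ⟨w * (Y * (w ^ ((g + 1) / 2)) ^ 2) * (if i = g + 1 + (g + 1) then 1 else 0) +
        w * ((2 * Y + 4 * T) * w ^ ((g + 1) / 2)) * (if i = g + 1 then 1 else 0) +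
        (if i = 0 then w * Y else 0), ?_⟩
      push_cast
      rfl
    obtain ⟨z, hz⟩ := this
    rw [hz]
    exact val_nat_le_one v z
  obtain ⟨k, hk, _, hle⟩ := minExp_le hF v (Eqv.refl hd) hint (t := 0)
    (by
      have : ((2 : ℕ) : K) = 2 := by norm_num
      rw [this] at h2
      rw [h2]; simp)
  rw [val_discN_frm hY hw, h3, ← exp_zero, exp_inj] at hk
  apply hv
  have : k = 0 := by omega
  rw [this] at hle
  simpa using hle

/-- Primes larger than the discriminant are unramified. -/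
theorem val_prime {p : ℕ} (hp : p.Prime) (hd : (discr K).natAbs < p)
    (v : HeightOneSpectrum (𝓞 K)) (hv : v.valuation K (p : K) ≠ 1) :
    v.valuation K (p : K) = exp (-1) := by
  have h0 : v.valuation K (p : K) = exp (-(cnt v p : ℤ)) := val_cnt v hp.ne_zero
  have hc0 : cnt v p ≠ 0 := by
    intro h
    rw [h] at h0
    exact hv (by rw [h0]; simp)
  by_contra hcon
  have hc2 : 2 ≤ cnt v p := by
    by_contra h
    have : cnt v p = 1 := by omega
    rw [this] at h0
    exact hcon (by rw [h0]; simp)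
  have h1 : (p : 𝓞 K) ∈ v.asIdeal ^ 2 := by
    rw [← val_le_iff_mem]
    have e : (((p : 𝓞 K) : 𝓞 K) : K) = (p : K) := map_natCast (algebraMap (𝓞 K) K) p
    rw [e, h0, exp_le_exp]
    push_cast
    omega
  have hmem : (p : 𝓞 K) ∈ v.asIdeal := Ideal.pow_le_self (by norm_num) h1
  have hpmax : (Ideal.span {(p : ℤ)}).IsMaximal := by
    have := (PrincipalIdealRing.isMaximal_of_irreducible (R := ℤ)
      (Nat.prime_iff_prime_int.mp hp).irreducible)
    exact this
  have hdvd : v.asIdeal ^ 2 ∣ (Ideal.span {(p : ℤ)}).map (algebraMap ℤ (𝓞 K)) := by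
    rw [Ideal.map_span, Set.image_singleton, Ideal.dvd_span_singleton]
    simpa using h1
  have h2 := pow_sub_one_dvd_differentIdeal (A := ℤ) (B := 𝓞 K) (p := Ideal.span {(p : ℤ)})
    v.asIdeal 2 (by
      rw [Ne, Ideal.span_singleton_eq_bot]
      exact_mod_cast hp.ne_zero) hdvd
  have h3 : ((discr K : ℤ) : 𝓞 K) ∈ v.asIdeal := by
    have h4 := NumberField.discr_mem_differentIdeal K (𝓞 K)
    have h5 := Ideal.le_of_dvd h2
    simpa using h5 h4
  -- `p` and the discriminant are coprime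
  have hcop : IsCoprime (p : ℤ) (discr K) := by
    rw [Int.isCoprime_iff_gcd_eq_one]
    have hd0 : (discr K).natAbs ≠ 0 := Int.natAbs_ne_zero.mpr (discr_ne_zero K)
    have : Nat.Coprime p (discr K).natAbs := by
      rw [Nat.Prime.coprime_iff_not_dvd hp]
      intro h
      have := Nat.le_of_dvd (Nat.pos_of_ne_zero hd0) h
      omega
    rw [Int.gcd_eq_natAbs]
    simpa using this
  obtain ⟨a, b, hab⟩ := hcop
  have h6 : (1 : 𝓞 K) ∈ v.asIdeal := by
    have h7 : ((a : ℤ) : 𝓞 K) * (p : 𝓞 K) + ((b : ℤ) : 𝓞 K) * ((discr K : ℤ) : 𝓞 K) = 1 := by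
      exact_mod_cast congrArg (Int.cast : ℤ → 𝓞 K) hab
    rw [← h7]
    exact v.asIdeal.add_mem (v.asIdeal.mul_mem_left _ hmem) (v.asIdeal.mul_mem_left _ h3)
  exact v.isPrime.ne_top ((Ideal.eq_top_iff_one _).mpr h6)

/-- A squarefree number with large prime factors has valuation `1` or `exp (-1)`. -/
theorem val_squarefree {w : ℕ} (hw : Squarefree w)
    (hd : ∀ p : ℕ, p.Prime → p ∣ w → (discr K).natAbs < p)
    (v : HeightOneSpectrum (𝓞 K)) :
    v.valuation K (w : K) = 1 ∨ v.valuation K (w : K) = exp (-1) := by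
  by_cases h1 : ∀ p ∈ w.primeFactors, v.valuation K (p : K) = 1
  · left
    rw [← Nat.prod_primeFactors_of_squarefree hw, Nat.cast_prod, map_prod]
    exact Finset.prod_eq_one h1
  · right
    push Not at h1
    obtain ⟨p, hp, hpv⟩ := h1
    have hpp := Nat.prime_of_mem_primeFactors hp
    have hpd := Nat.dvd_of_mem_primeFactors hp
    obtain ⟨u, rfl⟩ := hpd
    have hcop : Nat.Coprime p u := Nat.coprime_of_squarefree_mul hw
    have h2 := (val_one_or hcop v).resolve_left hpv
    rw [Nat.cast_mul, map_mul, h2, mul_one]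
    exact val_prime hpp (hd p hpp (dvd_mul_right _ _)) v hpv

end

end Pool.Agent.Y678.SZ
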