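import Pool.Agent.Y678.SZ.Disc

namespace Pool.Agent.Y678.SZ

open Polynomial Pool.Agent.W318 Finset

section

variable {M : Type*} [Field M] [CharZero M] {A : AbsoluteValue M ℝ}

omit [CharZero M] in
theorem abs_root_of_unity {n : ℕ} (hn : 1 ≤ n) {ζ : M} (hζ : ζ ^ n = 1) : A ζ = 1 := by
  have h1 : A ζ ^ n = 1 := by rw [← map_pow, hζ, map_one]
  exact (pow_eq_one_iff_of_nonneg (A.nonneg _) (by omega)).mp h1

/-- `|n| ≤ |1 - ζ|` for a primitive `n`-th root of unity `ζ`. -/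
theorem abs_natCast_le (hna : IsNonarchimedean A) {n : ℕ} (hn : 2 ≤ n) {ζ : M}
    (hζ : IsPrimitiveRoot ζ n) : A (n : M) ≤ A (1 - ζ) := by
  obtain ⟨m, rfl⟩ : ∃ m, n = m + 1 + 1 := ⟨n - 2, by omega⟩
  have h1 := hζ.prod_one_sub_pow_eq_order
  have h2 : A ((m + 1 + 1 : ℕ) : M) = ∏ k ∈ range (m + 1), A (1 - ζ ^ (k + 1)) := by
    rw [← map_prod, h1]; push_cast; rfl
  rw [h2, prod_range_succ']
  have hle : ∀ k : ℕ, A (1 - ζ ^ (k + 1)) ≤ 1 := by
    intro k
    refine (na_sub_le hna _ _).trans (max_le (by rw [map_one]) ?_)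
    rw [map_pow, abs_root_of_unity (A := A) (by omega) hζ.pow_eq_one, one_pow]
  have h3 : ∏ k ∈ range m, A (1 - ζ ^ (k + 1 + 1)) ≤ 1 :=
    prod_le_one (fun _ _ => A.nonneg _) fun k _ => hle _
  calc _ ≤ 1 * A (1 - ζ ^ (0 + 1)) := mul_le_mul_of_nonneg_right h3 (A.nonneg _)
    _ = _ := by rw [one_mul, zero_add, pow_one]

omit [CharZero M] in
theorem abs_natCast_le_one (hna : IsNonarchimedean A) (m : ℕ) : A (m : M) ≤ 1 :=
  hna.apply_natCast_le_one

/-- The pairing of the roots. -/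
theorem exists_pairing (hna : IsNonarchimedean A) {n : ℕ} (hn : 2 ≤ n) {ζ : M}
    (hζ : IsPrimitiveRoot ζ n) {Y T θ : M} (hY : Y ≠ 0)
    (hθ : Y * θ ^ (n + n) + (2 * Y + 4 * T) * θ ^ n + Y = 0)
    (hmax : A Y = 1 ∨ A T = 1) :
    ∃ t : ℕ, A (4 * (n : M) ^ n) ≤ A Y * A (θ - ζ ^ t * θ⁻¹) ^ n := by
  have hθ0 : θ ≠ 0 := by
    rintro rfl
    apply hY
    rw [zero_pow (by omega), zero_pow (by omega)] at hθ
    simpa using hθ
  have h4 : A (4 : M) ≤ 1 := by
    have := abs_natCast_le_one (A := A) hna 4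
    simpa using this
  have h2 : A (2 : M) ≤ 1 := by
    have := abs_natCast_le_one (A := A) hna 2
    simpa using this
  have hn1 : A (n : M) ≤ 1 := abs_natCast_le_one hna n
  have hnn : A (n : M) ^ n ≤ 1 := pow_le_one₀ (A.nonneg _) hn1
  have hAζ : A ζ = 1 := abs_root_of_unity (by omega) hζ.pow_eq_one
  -- the relation `Y (θ ^ n + θ ^ (-n)) = -(2 Y + 4 T)`
  have hrel : Y * (θ ^ n + (θ⁻¹) ^ n) = -(2 * Y + 4 * T) := by
    have h5 : θ ^ n ≠ 0 := pow_ne_zero _ hθ0
    have : θ ^ n * (Y * (θ ^ n + (θ⁻¹) ^ n)) = θ ^ n * (-(2 * Y + 4 * T)) := by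
      rw [inv_pow]
      rw [pow_add] at hθ
      field_simp
      linear_combination hθ
    exact mul_left_cancel₀ h5 this
  have h2Y : A (2 * Y) ≤ A Y := by
    rw [map_mul]
    exact mul_le_of_le_one_left (A.nonneg _) h2
  rw [map_mul, map_pow]
  by_cases h1 : A θ = 1
  · -- all roots are units
    have hAi : A θ⁻¹ = 1 := by rw [map_inv₀, h1, inv_one]
    have hYbig : A (4 : M) ≤ A Y := by
      rcases hmax with h | h
      · rw [h]; exact h4
      · have h6 : A (2 * Y + 4 * T) ≤ A Y := by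
          rw [← A.map_neg, ← hrel, map_mul]
          refine mul_le_of_le_one_right (A.nonneg _) ?_
          refine (hna _ _).trans (max_le ?_ ?_)
          · rw [map_pow, h1, one_pow]
          · rw [map_pow, hAi, one_pow]
        have h7 : 4 * T = (2 * Y + 4 * T) - 2 * Y := by ring
        have h8 : A (4 * T) ≤ A Y := by
          rw [h7]
          exact (na_sub_le hna _ _).trans (max_le h6 h2Y)
        rwa [map_mul, h, mul_one] at h8
    -- one of the two shifts works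
    have hshift : A (n : M) ≤ A (θ - ζ ^ 0 * θ⁻¹) ∨ A (n : M) ≤ A (θ - ζ ^ 1 * θ⁻¹) := by
      by_contra hcon
      push Not at hcon
      obtain ⟨c0, c1⟩ := hcon
      have h9 : A (n : M) ≤ A (1 - ζ) := abs_natCast_le hna hn hζ
      have h10 : (1 - ζ) * θ⁻¹ = (θ - ζ ^ 1 * θ⁻¹) - (θ - ζ ^ 0 * θ⁻¹) := by ring
      have h11 : A ((1 - ζ) * θ⁻¹) < A (n : M) := by
        rw [h10]
        exact (na_sub_le hna _ _).trans_lt (max_lt c1 c0)
      rw [map_mul, hAi, mul_one] at h11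
      linarith
    rcases hshift with h | h
    · exact ⟨0, mul_le_mul hYbig (pow_le_pow_left₀ (A.nonneg _) h n) (pow_nonneg (A.nonneg _) _)
        (A.nonneg _)⟩
    · exact ⟨1, mul_le_mul hYbig (pow_le_pow_left₀ (A.nonneg _) h n) (pow_nonneg (A.nonneg _) _)
        (A.nonneg _)⟩
  · -- `|θ|` and `|θ⁻¹|` are different
    refine ⟨0, ?_⟩
    rw [pow_zero, one_mul]
    have hpos : 0 < A θ := A.pos hθ0
    have hposi : 0 < A θ⁻¹ := A.pos (inv_ne_zero hθ0)
    have hinv : A θ⁻¹ = (A θ)⁻¹ := map_inv₀ _ _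
    -- absolute value of the difference and of the sum of the powers
    have key : 1 < A (θ - θ⁻¹) ∧ A (θ ^ n + (θ⁻¹) ^ n) = A (θ - θ⁻¹) ^ n := by
      rcases lt_or_gt_of_ne h1 with hlt | hgt
      · have hi : 1 < A θ⁻¹ := by rw [hinv]; exact (one_lt_inv₀ hpos).mpr hlt
        have hd : A (θ - θ⁻¹) = A θ⁻¹ := by
          rw [← A.map_neg, neg_sub]
          exact na_sub_eq hna (hlt.trans hi)
        refine ⟨by rw [hd]; exact hi, ?_⟩
        have e : θ ^ n + (θ⁻¹) ^ n = (θ⁻¹) ^ n - (-(θ ^ n)) := by ring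
        rw [e, na_sub_eq hna, hd, map_pow]
        rw [A.map_neg, map_pow, map_pow]
        exact pow_lt_pow_left₀ (hlt.trans hi) (A.nonneg _) (by omega)
      · have hi : A θ⁻¹ < 1 := by rw [hinv]; exact inv_lt_one_of_one_lt₀ hgt
        have hd : A (θ - θ⁻¹) = A θ := na_sub_eq hna (hi.trans hgt)
        refine ⟨by rw [hd]; exact hgt, ?_⟩
        have e : θ ^ n + (θ⁻¹) ^ n = θ ^ n - (-((θ⁻¹) ^ n)) := by ring
        rw [e, na_sub_eq hna, hd, map_pow]
        rw [A.map_neg, map_pow, map_pow]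
        exact pow_lt_pow_left₀ (hi.trans hgt) (A.nonneg _) (by omega)
    obtain ⟨k1, k2⟩ := key
    have h6 : A (2 * Y + 4 * T) = A Y * A (θ - θ⁻¹) ^ n := by
      rw [← A.map_neg, ← hrel, map_mul, k2]
    have hp1 : 1 < A (θ - θ⁻¹) ^ n := one_lt_pow₀ k1 (by omega)
    have hAY : 0 < A Y := A.pos hY
    have hbig : A (4 : M) ≤ A Y * A (θ - θ⁻¹) ^ n := by
      rcases hmax with h | h
      · rw [h, one_mul]; exact h4.trans hp1.le
      · rw [← h6]
        have h7 : 4 * T = (2 * Y + 4 * T) - 2 * Y := by ring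
        have h8 : A (4 * T) ≤ A (2 * Y + 4 * T) := by
          have h9 : A (2 * Y) ≤ A (2 * Y + 4 * T) := by
            refine h2Y.trans ?_
            rw [h6]
            exact le_mul_of_one_le_right hAY.le hp1.le
          calc A (4 * T) = A ((2 * Y + 4 * T) - 2 * Y) := by rw [← h7]
            _ ≤ _ := (na_sub_le hna _ _).trans (max_le le_rfl h9)
        rwa [map_mul, h, mul_one] at h8
    calc A 4 * A (n : M) ^ n ≤ A 4 * 1 := mul_le_mul_of_nonneg_left hnn (A.nonneg _)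
      _ = A 4 := mul_one _
      _ ≤ _ := hbig

/-- The lower bound for the discriminant of the integral models, away from the twisted places. -/
theorem local1 (hna : IsNonarchimedean A) {n : ℕ} (hn : 2 ≤ n) {ζ : M}
    (hζ : IsPrimitiveRoot ζ n) {Y T θ w S s : M} (hY : Y ≠ 0) (hT : T ≠ 0) (hZ : Y + T ≠ 0)
    (hθ : Y * θ ^ (n + n) + (2 * Y + 4 * T) * θ ^ n + Y = 0)
    (hmax : A Y = 1 ∨ A T = 1)
    (hs : s ^ n = S) (hs1 : A s = 1) (hw : A w = 1)
    {a b c d l : M} (hdet : a * d - b * c ≠ 0) (hl : l ≠ 0)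
    (hint : (C (l ^ 2) * act (n + n) a b c d
      (tri n (w * (Y * S ^ 2)) (w * ((2 * Y + 4 * T) * S)) (w * Y))).gaussNorm A 1 ≤ 1) :
    A (discN (n + n) (C (l ^ 2) * act (n + n) a b c d
      (tri n (w * (Y * S ^ 2)) (w * ((2 * Y + 4 * T) * S)) (w * Y)))) *
      A (4 * (n : M) ^ n) ^ (2 * (n + n - 1)) ≤
    A (discN (n + n) (tri n (w * (Y * S ^ 2)) (w * ((2 * Y + 4 * T) * S)) (w * Y))) := by
  obtain ⟨t, ht⟩ := exists_pairing hna hn hζ hY hθ hmax
  have hθ0 : θ ≠ 0 := by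
    rintro rfl
    apply hY
    rw [zero_pow (by omega), zero_pow (by omega)] at hθ
    simpa using hθ
  have hs0 : s ≠ 0 := by
    rintro rfl
    rw [map_zero] at hs1
    exact zero_ne_one hs1
  have hw0 : w ≠ 0 := by
    rintro rfl
    rw [map_zero] at hw
    exact zero_ne_one hw
  have hζ0 : ζ ≠ 0 := hζ.ne_zero (by omega)
  have hAζ : A ζ = 1 := abs_root_of_unity (by omega) hζ.pow_eq_one
  have hrel : Y * (θ ^ n + (θ⁻¹) ^ n) = -(2 * Y + 4 * T) := by
    have h5 : θ ^ n ≠ 0 := pow_ne_zero _ hθ0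
    have : θ ^ n * (Y * (θ ^ n + (θ⁻¹) ^ n)) = θ ^ n * (-(2 * Y + 4 * T)) := by
      rw [inv_pow]
      rw [pow_add] at hθ
      field_simp
      linear_combination hθ
    exact mul_left_cancel₀ h5 this
  set α₁ : M := θ / s with hα₁
  set α₂ : M := ζ ^ t * θ⁻¹ / s with hα₂
  have hp1 : α₁ ^ n = θ ^ n / S := by rw [hα₁, div_pow, hs]
  have hp2 : α₂ ^ n = (θ⁻¹) ^ n / S := by
    rw [hα₂, div_pow, mul_pow, ← pow_mul, mul_comm t n, pow_mul, hζ.pow_eq_one, one_pow, one_mul,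
      hs]
  set ρ : Fin n ⊕ Fin n → M := Sum.elim (fun i => ζ ^ (i : ℕ) * α₁) (fun i => ζ ^ (i : ℕ) * α₂)
    with hρ
  set u : M := w * (Y * S ^ 2) with hu
  have hS0 : S ≠ 0 := by rw [← hs]; exact pow_ne_zero _ hs0
  have hu0 : u ≠ 0 := mul_ne_zero hw0 (mul_ne_zero hY (pow_ne_zero _ hS0))
  have hfac : tri n (w * (Y * S ^ 2)) (w * ((2 * Y + 4 * T) * S)) (w * Y) =
      C u * ∏ i : Fin (n + n), (C ((fun _ => (1 : M)) i) * X +
        C ((fun j => -ρ (finSumFinEquiv.symm j)) i)) := by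
    have h1 : ∏ i : Fin (n + n), (C ((fun _ => (1 : M)) i) * X +
        C ((fun j => -ρ (finSumFinEquiv.symm j)) i)) =
        (∏ i : Fin n, (X - C (ζ ^ (i : ℕ) * α₁))) * ∏ i : Fin n, (X - C (ζ ^ (i : ℕ) * α₂)) := by
      rw [← Equiv.prod_comp finSumFinEquiv, Fintype.prod_sum_type]
      simp only [Equiv.symm_apply_apply, hρ, Sum.elim_inl, Sum.elim_inr, C_1, one_mul, C_neg,
        ← sub_eq_add_neg]
    have h2 : ∀ α : M, ∏ i : Fin n, (X - C (ζ ^ (i : ℕ) * α)) = X ^ n - C (α ^ n) := by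
      intro α
      rw [X_pow_sub_C_eq_prod hζ (by omega : 0 < n) (rfl : α ^ n = α ^ n)]
      exact (Finset.prod_range fun i => (X - C (ζ ^ i * α) : M[X])).symm
    rw [h1, h2, h2, hp1, hp2]
    unfold tri
    have e1 : C u * (C (θ ^ n / S) * C ((θ⁻¹) ^ n / S)) = (C (w * Y) : M[X]) := by
      rw [← C_mul, ← C_mul]
      congr 1
      have h5 : θ ^ n ≠ 0 := pow_ne_zero _ hθ0
      rw [hu, inv_pow]
      field_simp
    have e2 : C u * (-(C (θ ^ n / S) + C ((θ⁻¹) ^ n / S))) =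
        (C (w * ((2 * Y + 4 * T) * S)) : M[X]) := by
      rw [← C_add, ← C_neg, ← C_mul]
      congr 1
      rw [hu]
      field_simp
      linear_combination -(hrel : Y * (θ ^ n + (θ⁻¹) ^ n) = -(2 * Y + 4 * T))
    rw [← e1, ← e2, ← hu]
    ring
  have hρne : ∀ i j, i ≠ j → ρ i ≠ ρ j := by
    have hα₁0 : α₁ ≠ 0 := div_ne_zero hθ0 hs0
    have hα₂0 : α₂ ≠ 0 := div_ne_zero (mul_ne_zero (pow_ne_zero _ hζ0) (inv_ne_zero hθ0)) hs0
    have hinj : ∀ (α : M), α ≠ 0 → ∀ i j : Fin n, i ≠ j → ζ ^ (i : ℕ) * α ≠ ζ ^ (j : ℕ) * α := by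
      intro α hα i j hij h
      apply hij
      have := mul_right_cancel₀ hα h
      exact Fin.ext (hζ.pow_inj i.2 j.2 this)
    have hcross : ∀ i j : Fin n, ζ ^ (i : ℕ) * α₁ ≠ ζ ^ (j : ℕ) * α₂ := by
      intro i j h
      have h1 : (ζ ^ (i : ℕ) * α₁) ^ n = (ζ ^ (j : ℕ) * α₂) ^ n := by rw [h]
      rw [mul_pow, mul_pow, ← pow_mul, ← pow_mul, mul_comm (i : ℕ), mul_comm (j : ℕ), pow_mul,
        pow_mul, hζ.pow_eq_one, one_pow, one_pow, one_mul, one_mul, hp1, hp2, inv_pow] at h1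
      have h2 : θ ^ n = (θ ^ n)⁻¹ := by
        field_simp at h1
        field_simp
        linear_combination h1
      rw [inv_pow, ← h2] at hrel
      have h3 : θ ^ n * θ ^ n = 1 := by
        have h5 : θ ^ n ≠ 0 := pow_ne_zero _ hθ0
        calc θ ^ n * θ ^ n = θ ^ n * (θ ^ n)⁻¹ := by rw [← h2]
          _ = 1 := mul_inv_cancel₀ h5
      have h4 : (θ ^ n - 1) * (θ ^ n + 1) = 0 := by linear_combination h3
      rcases mul_eq_zero.mp h4 with h | h
      · have e : θ ^ n = 1 := by linear_combination h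
        rw [e] at hrel
        apply hZ
        have : (4 : M) * (Y + T) = 0 := by linear_combination hrel
        exact (mul_eq_zero.mp this).resolve_left (by norm_num)
      · have e : θ ^ n = -1 := by linear_combination h
        rw [e] at hrel
        apply hT
        have : (4 : M) * T = 0 := by linear_combination hrel
        exact (mul_eq_zero.mp this).resolve_left (by norm_num)
    rintro (i | i) (j | j) hij
    · exact hinj _ hα₁0 i j (fun h => hij (by rw [h]))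
    · exact hcross i j
    · exact (hcross j i).symm
    · exact hinj _ hα₂0 i j (fun h => hij (by rw [h]))
  rw [hfac] at hint ⊢
  refine compare_disc hna hu0 ?_ hn finSumFinEquiv (A.nonneg _) ?_ hdet hl hint
  · intro i j hij h0
    have h1 : finSumFinEquiv.symm j ≠ finSumFinEquiv.symm i := by
      intro h; exact hij (finSumFinEquiv.symm.injective h).symm
    apply hρne _ _ h1
    linear_combination -h0
  · refine ht.trans ?_
    have e1 : A u = A Y := by
      rw [hu, map_mul, map_mul, map_pow, hw, ← hs, map_pow, hs1]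
      simp
    have e2 : ∀ i : Fin n, A ((fun _ : Fin (n + n) => (1 : M)) (finSumFinEquiv (Sum.inl i)) *
        (fun j : Fin (n + n) => -ρ (finSumFinEquiv.symm j)) (finSumFinEquiv (Sum.inr i)) -
        (fun _ : Fin (n + n) => (1 : M)) (finSumFinEquiv (Sum.inr i)) *
        (fun j : Fin (n + n) => -ρ (finSumFinEquiv.symm j)) (finSumFinEquiv (Sum.inl i))) =
        A (θ - ζ ^ t * θ⁻¹) := by
      intro i
      simp only [Equiv.symm_apply_apply, one_mul]
      have : -ρ (Sum.inr i) - -ρ (Sum.inl i) = ζ ^ (i : ℕ) * ((θ - ζ ^ t * θ⁻¹) / s) := by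
        simp only [hρ, Sum.elim_inl, Sum.elim_inr, hα₁, hα₂]
        ring
      rw [this, map_mul, map_div₀, hs1, div_one, map_pow, hAζ, one_pow, one_mul]
    rw [e1, Finset.prod_congr rfl fun i _ => e2 i]
    simp

end

end Pool.Agent.Y678.SZ
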