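import Pool.Agent.Y678.SZ.Disc

namespace Pool.Agent.Y678.SZ

open Polynomial Pool.Agent.W318 Finset NumberField IsDedekindDomain WithZero

section

variable {k : Type*} [Field k]

theorem act_add (N : ℕ) (a b c d : k) (F G : k[X]) :
    act N a b c d (F + G) = act N a b c d F + act N a b c d G := by
  simp only [act, coeff_add, C_add, add_mul, Finset.sum_add_distrib]

theorem act_X_pow (N : ℕ) (a b c d : k) {i : ℕ} (hi : i ≤ N) :
    act N a b c d (X ^ i) = (C a * X + C b) ^ i * (C c * X + C d) ^ (N - i) := by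
  unfold act
  rw [Finset.sum_eq_single i]
  · rw [coeff_X_pow_self, C_1, one_mul]
  · intro j _ hj
    rw [coeff_X_pow, if_neg hj, C_0, zero_mul, zero_mul]
  · intro h
    exact absurd (mem_range.mpr (by omega)) h

theorem act_tri (n : ℕ) (a b c d p q r : k) :
    act (n + n) a b c d (tri n p q r) = C p * (C a * X + C b) ^ (n + n) +
      C q * ((C a * X + C b) ^ n * (C c * X + C d) ^ n) + C r * (C c * X + C d) ^ (n + n) := by
  have h0 : (C r : k[X]) = C r * X ^ 0 := by simp
  unfold tri
  rw [h0, act_add, act_add, act_C_mul, act_C_mul, act_C_mul, act_X_pow _ _ _ _ _ le_rfl,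
    act_X_pow _ _ _ _ _ (by omega : n ≤ n + n), act_X_pow _ _ _ _ _ (by omega : 0 ≤ n + n)]
  simp

theorem coeff_top_act_tri (n : ℕ) (a b c d p q r : k) :
    (act (n + n) a b c d (tri n p q r)).coeff (n + n) =
      p * a ^ (n + n) + q * (a ^ n * c ^ n) + r * c ^ (n + n) := by
  have hl : ∀ (x y : k) (m : ℕ), ((C x * X + C y : k[X]) ^ m).coeff m = x ^ m := by
    intro x y m
    have := coeff_pow_of_natDegree_le (m := m) (natDegree_lin_le x y)
    rw [mul_one] at this
    rw [this]
    simp
  have hd : ∀ (x y : k) (m : ℕ), ((C x * X + C y : k[X]) ^ m).natDegree ≤ m := by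
    intro x y m
    refine natDegree_pow_le.trans ?_
    calc m * _ ≤ m * 1 := Nat.mul_le_mul_left _ (natDegree_lin_le x y)
      _ = m := mul_one _
  rw [act_tri, coeff_add, coeff_add, coeff_C_mul, coeff_C_mul, coeff_C_mul, hl, hl,
    coeff_mul_add_eq_of_natDegree_le (hd a b n) (hd c d n), hl, hl]

theorem coeff_zero_act_tri (n : ℕ) (a b c d p q r : k) :
    (act (n + n) a b c d (tri n p q r)).coeff 0 =
      p * b ^ (n + n) + q * (b ^ n * d ^ n) + r * d ^ (n + n) := by
  rw [act_tri, coeff_zero_eq_eval_zero]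
  simp

end

section

variable {K : Type*} [Field K] [NumberField K] {v : HeightOneSpectrum (𝓞 K)}

theorem val_nat_le_one (v : HeightOneSpectrum (𝓞 K)) (m : ℕ) : v.valuation K (m : K) ≤ 1 := by
  have e : algebraMap (𝓞 K) K (m : 𝓞 K) = (m : K) := map_natCast _ m
  rw [← e]
  exact v.valuation_le_one _

/-- The value of the twisted form at a primitive vector. -/
theorem val_form {n σ : ℕ} (hσ : 1 ≤ σ) (hσn : 2 * σ ≤ n) {Y T S : K}
    (hY : v.valuation K Y = 1) (hT : v.valuation K T ≤ 1)
    (hS : v.valuation K S = exp (-(σ : ℤ))) {x z : K} (hx : v.valuation K x ≤ 1)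
    (hz : v.valuation K z ≤ 1) :
    (v.valuation K z = 1 →
      v.valuation K (Y * S ^ 2 * x ^ (n + n) + (2 * Y + 4 * T) * S * (x ^ n * z ^ n) +
        Y * z ^ (n + n)) = 1) ∧
    (v.valuation K z < 1 → v.valuation K x = 1 →
      v.valuation K (Y * S ^ 2 * x ^ (n + n) + (2 * Y + 4 * T) * S * (x ^ n * z ^ n) +
        Y * z ^ (n + n)) = exp (-(2 * σ : ℤ))) := by
  have h24 : v.valuation K (2 * Y + 4 * T) ≤ 1 := by
    refine (Valuation.map_add _ _ _).trans (max_le ?_ ?_)
    · rw [map_mul, hY, mul_one]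
      exact_mod_cast val_nat_le_one v 2
    · rw [map_mul]
      exact mul_le_one' (by exact_mod_cast val_nat_le_one v 4) hT
  have hS1 : v.valuation K S < 1 := by
    rw [hS, ← exp_zero, exp_lt_exp]; omega
  constructor
  · intro hz1
    have t3 : v.valuation K (Y * z ^ (n + n)) = 1 := by rw [map_mul, map_pow, hY, hz1]; simp
    have t1 : v.valuation K (Y * S ^ 2 * x ^ (n + n)) < 1 := by
      rw [map_mul, map_mul, map_pow, map_pow, hY, one_mul]
      refine (mul_le_of_le_one_right' (pow_le_one' hx _)).trans_lt ?_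
      exact pow_lt_one₀ zero_le hS1 (by norm_num)
    have t2 : v.valuation K ((2 * Y + 4 * T) * S * (x ^ n * z ^ n)) < 1 := by
      rw [map_mul, map_mul]
      have h5 : v.valuation K (x ^ n * z ^ n) ≤ 1 := by
        rw [map_mul, map_pow, map_pow]
        exact mul_le_one' (pow_le_one' hx _) (pow_le_one' hz _)
      refine (mul_le_of_le_one_right' h5).trans_lt ?_
      exact (mul_le_of_le_one_left' h24).trans_lt hS1
    have t12 := Valuation.map_add_lt _ t1 t2
    rw [Valuation.map_add_eq_of_lt_right _ (by rw [t3]; exact t12), t3]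
  · intro hz1 hx1
    have hz' : v.valuation K z ≤ exp (-1) := by
      rcases eq_or_ne z 0 with rfl | h0
      · rw [map_zero]; exact zero_le
      · obtain ⟨e, he⟩ := exists_exp v h0
        rw [he, ← exp_zero, exp_lt_exp] at hz1
        rw [he, exp_le_exp]
        omega
    have hzp : ∀ m : ℕ, v.valuation K (z ^ m) ≤ exp (-(m : ℤ)) := by
      intro m
      rw [map_pow]
      refine (pow_le_pow_left' hz' m).trans ?_
      rw [← exp_nsmul, exp_le_exp]
      simp
    have t1 : v.valuation K (Y * S ^ 2 * x ^ (n + n)) = exp (-(2 * σ : ℤ)) := by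
      rw [map_mul, map_mul, map_pow, map_pow, hY, hx1, one_mul, one_pow, mul_one, hS,
        ← exp_nsmul]
      congr 1
      simp
    have t2 : v.valuation K ((2 * Y + 4 * T) * S * (x ^ n * z ^ n)) < exp (-(2 * σ : ℤ)) := by
      have h6 : v.valuation K ((2 * Y + 4 * T) * S * (x ^ n * z ^ n)) ≤
          exp (-(σ : ℤ)) * exp (-(n : ℤ)) := by
        rw [map_mul, map_mul]
        refine mul_le_mul' ?_ ?_
        · rw [hS]; exact mul_le_of_le_one_left' h24
        · rw [map_mul]
          calc v.valuation K (x ^ n) * v.valuation K (z ^ n) ≤ 1 * exp (-(n : ℤ)) := by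
                refine mul_le_mul' ?_ (hzp n)
                rw [map_pow]; exact pow_le_one' hx _
            _ = _ := one_mul _
      refine h6.trans_lt ?_
      rw [← exp_add, exp_lt_exp]
      omega
    have t3 : v.valuation K (Y * z ^ (n + n)) < exp (-(2 * σ : ℤ)) := by
      rw [map_mul, hY, one_mul]
      refine (hzp _).trans_lt ?_
      rw [exp_lt_exp]
      push_cast
      omega
    have t12 : v.valuation K (Y * S ^ 2 * x ^ (n + n) + (2 * Y + 4 * T) * S * (x ^ n * z ^ n)) =
        exp (-(2 * σ : ℤ)) := by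
      rw [Valuation.map_add_eq_of_lt_left _ (by rw [t1]; exact t2), t1]
    rw [Valuation.map_add_eq_of_lt_left _ (by rw [t12]; exact t3), t12]

/-- The primitive case. -/
theorem twisted_prim {n σ : ℕ} (hσ : 1 ≤ σ) (hσn : 2 * σ ≤ n) {Y T S w : K}
    (hY : v.valuation K Y = 1) (hT : v.valuation K T ≤ 1)
    (hS : v.valuation K S = exp (-(σ : ℤ))) (hw : v.valuation K w = exp (-1)) {a b c d l : K}
    (ha : v.valuation K a ≤ 1) (hb : v.valuation K b ≤ 1) (hc : v.valuation K c ≤ 1)
    (hd : v.valuation K d ≤ 1)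
    (hone : v.valuation K a = 1 ∨ v.valuation K b = 1 ∨ v.valuation K c = 1 ∨
      v.valuation K d = 1) (hl : l ≠ 0)
    (h1 : v.valuation K (l ^ 2 * (w * (Y * S ^ 2 * a ^ (n + n) +
      (2 * Y + 4 * T) * S * (a ^ n * c ^ n) + Y * c ^ (n + n)))) ≤ 1)
    (h2 : v.valuation K (l ^ 2 * (w * (Y * S ^ 2 * b ^ (n + n) +
      (2 * Y + 4 * T) * S * (b ^ n * d ^ n) + Y * d ^ (n + n)))) ≤ 1) :
    v.valuation K (l ^ 2 * (a * d - b * c) ^ n) ≤ 1 := by
  obtain ⟨e, he⟩ := exists_exp v hl
  have hdet : v.valuation K (a * d - b * c) ≤ 1 := by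
    refine (Valuation.map_sub _ _ _).trans (max_le ?_ ?_)
    · rw [map_mul]; exact mul_le_one' ha hd
    · rw [map_mul]; exact mul_le_one' hb hc
  -- the first case
  have case1 : ∀ q : K, v.valuation K q = 1 → v.valuation K (l ^ 2 * (w * q)) ≤ 1 →
      v.valuation K (l ^ 2 * (a * d - b * c) ^ n) ≤ 1 := by
    intro q hq h
    rw [map_mul, map_mul, map_pow, hq, mul_one, he, hw, ← exp_nsmul, ← exp_add, ← exp_zero,
      exp_le_exp] at h
    simp only [nsmul_eq_mul] at h
    push_cast at h
    have he0 : e ≤ 0 := by omega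
    rw [map_mul, map_pow, map_pow, he]
    refine mul_le_one' (pow_le_one' ?_ _) (pow_le_one' hdet _)
    rw [← exp_zero, exp_le_exp]
    exact he0
  by_cases hc1 : v.valuation K c = 1
  · exact case1 _ ((val_form hσ hσn hY hT hS ha hc).1 hc1) h1
  by_cases hd1 : v.valuation K d = 1
  · exact case1 _ ((val_form hσ hσn hY hT hS hb hd).1 hd1) h2
  have hc' : v.valuation K c < 1 := lt_of_le_of_ne hc hc1
  have hd' : v.valuation K d < 1 := lt_of_le_of_ne hd hd1
  have hdet' : v.valuation K (a * d - b * c) ≤ exp (-1) := by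
    have hlt : v.valuation K (a * d - b * c) < 1 := by
      refine (Valuation.map_sub _ _ _).trans_lt (max_lt ?_ ?_)
      · rw [map_mul]; exact (mul_le_of_le_one_left' ha).trans_lt hd'
      · rw [map_mul]; exact (mul_le_of_le_one_left' hb).trans_lt hc'
    rcases eq_or_ne (a * d - b * c) 0 with h0 | h0
    · rw [h0, map_zero]; exact zero_le
    · obtain ⟨r, hr⟩ := exists_exp v h0
      rw [hr, ← exp_zero, exp_lt_exp] at hlt
      rw [hr, exp_le_exp]
      omega
  have case2 : ∀ q : K, v.valuation K q = exp (-(2 * σ : ℤ)) →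
      v.valuation K (l ^ 2 * (w * q)) ≤ 1 →
      v.valuation K (l ^ 2 * (a * d - b * c) ^ n) ≤ 1 := by
    intro q hq h
    rw [map_mul, map_mul, map_pow, hq, he, hw, ← exp_nsmul, ← exp_add, ← exp_add, ← exp_zero,
      exp_le_exp] at h
    simp only [nsmul_eq_mul] at h
    push_cast at h
    rw [map_mul, map_pow, map_pow, he]
    calc exp e ^ 2 * v.valuation K (a * d - b * c) ^ n ≤ exp e ^ 2 * exp (-1) ^ n :=
          mul_le_mul_right (pow_le_pow_left' hdet' n) _
      _ ≤ 1 := by
        rw [← exp_nsmul, ← exp_nsmul, ← exp_add, ← exp_zero, exp_le_exp]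
        simp only [nsmul_eq_mul]
        push_cast
        omega
  rcases hone with h | h | h | h
  · exact case2 _ ((val_form hσ hσn hY hT hS ha hc).2 hc' h) h1
  · exact case2 _ ((val_form hσ hσn hY hT hS hb hd).2 hd' h) h2
  · exact absurd h hc1
  · exact absurd h hd1

/-- The lower bound at the twisted places. -/
theorem twisted {n σ : ℕ} (hσ : 1 ≤ σ) (hσn : 2 * σ ≤ n) {Y T S w : K}
    (hY : v.valuation K Y = 1) (hT : v.valuation K T ≤ 1)
    (hS : v.valuation K S = exp (-(σ : ℤ))) (hw : v.valuation K w = exp (-1)) {a b c d l : K}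
    (hdet : a * d - b * c ≠ 0) (hl : l ≠ 0)
    (hint : ∀ i, v.valuation K ((C (l ^ 2) * act (n + n) a b c d
      (tri n (w * (Y * S ^ 2)) (w * ((2 * Y + 4 * T) * S)) (w * Y))).coeff i) ≤ 1) :
    v.valuation K (l ^ 2 * (a * d - b * c) ^ n) ≤ 1 := by
  classical
  -- an entry of maximal value
  obtain ⟨m, hm0, hma, hmb, hmc, hmd, hone⟩ : ∃ m : K, m ≠ 0 ∧
      v.valuation K a ≤ v.valuation K m ∧ v.valuation K b ≤ v.valuation K m ∧
      v.valuation K c ≤ v.valuation K m ∧ v.valuation K d ≤ v.valuation K m ∧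
      (m = a ∨ m = b ∨ m = c ∨ m = d) := by
    obtain ⟨m, hm, hmax⟩ := Finset.exists_max_image ({a, b, c, d} : Finset K)
      (fun x => v.valuation K x) ⟨a, by simp⟩
    have ha := hmax a (by simp)
    have hb := hmax b (by simp)
    have hc := hmax c (by simp)
    have hd := hmax d (by simp)
    refine ⟨m, ?_, ha, hb, hc, hd, by simpa using hm⟩
    rintro rfl
    rw [map_zero, le_zero_iff, Valuation.zero_iff] at ha hb hc hd
    apply hdet
    rw [ha, hb]
    ring
  have hdiv : ∀ x : K, v.valuation K x ≤ v.valuation K m → v.valuation K (x / m) ≤ 1 := by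
    intro x hx
    rw [map_div₀]
    exact div_le_one_of_le₀ hx zero_le
  have hone' : v.valuation K (a / m) = 1 ∨ v.valuation K (b / m) = 1 ∨
      v.valuation K (c / m) = 1 ∨ v.valuation K (d / m) = 1 := by
    rcases hone with h | h | h | h
    · left; rw [← h, div_self hm0, map_one]
    · right; left; rw [← h, div_self hm0, map_one]
    · right; right; left; rw [← h, div_self hm0, map_one]
    · right; right; right; rw [← h, div_self hm0, map_one]
  have h1 := hint (n + n)
  have h2 := hint 0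
  rw [coeff_C_mul, coeff_top_act_tri] at h1
  rw [coeff_C_mul, coeff_zero_act_tri] at h2
  have key := twisted_prim hσ hσn hY hT hS hw (hdiv a hma) (hdiv b hmb) (hdiv c hmc) (hdiv d hmd)
    hone' (l := l * m ^ n) (mul_ne_zero hl (pow_ne_zero _ hm0)) ?_ ?_
  · have e : (l * m ^ n) ^ 2 * (a / m * (d / m) - b / m * (c / m)) ^ n =
        l ^ 2 * (a * d - b * c) ^ n := by
      have e1 : (a / m * (d / m) - b / m * (c / m)) = (a * d - b * c) / m ^ 2 := by
        field_simp
      rw [e1, div_pow, mul_pow, ← pow_mul, ← pow_mul, mul_comm n 2]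
      have := pow_ne_zero (2 * n) hm0
      field_simp
    rwa [e] at key
  · have e : (l * m ^ n) ^ 2 * (w * (Y * S ^ 2 * (a / m) ^ (n + n) +
        (2 * Y + 4 * T) * S * ((a / m) ^ n * (c / m) ^ n) + Y * (c / m) ^ (n + n))) =
        l ^ 2 * (w * (Y * S ^ 2) * a ^ (n + n) + w * ((2 * Y + 4 * T) * S) * (a ^ n * c ^ n) +
          w * Y * c ^ (n + n)) := by
      have hmn := pow_ne_zero n hm0
      simp only [div_pow, pow_add]
      field_simp
    rw [e]; exact h1
  · have e : (l * m ^ n) ^ 2 * (w * (Y * S ^ 2 * (b / m) ^ (n + n) +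
        (2 * Y + 4 * T) * S * ((b / m) ^ n * (d / m) ^ n) + Y * (d / m) ^ (n + n))) =
        l ^ 2 * (w * (Y * S ^ 2) * b ^ (n + n) + w * ((2 * Y + 4 * T) * S) * (b ^ n * d ^ n) +
          w * Y * d ^ (n + n)) := by
      have hmn := pow_ne_zero n hm0
      simp only [div_pow, pow_add]
      field_simp
    rw [e]; exact h2

end

end Pool.Agent.Y678.SZ
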