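import Mathlib

namespace Pool.Agent.Y678.SZ

open Real

theorem irrational_log : Irrational (Real.log 2 / Real.log 3) := by
  have h2 : 0 < Real.log 2 := Real.log_pos (by norm_num)
  have h3 : 0 < Real.log 3 := Real.log_pos (by norm_num)
  rintro ⟨r, hr⟩
  have hr0 : 0 < r := by
    have : (0 : ℝ) < (r : ℝ) := by rw [hr]; positivity
    exact_mod_cast this
  have hnum : 0 < r.num := Rat.num_pos.mpr hr0
  have hden : (0 : ℝ) < (r.den : ℝ) := by exact_mod_cast r.den_pos
  have e1 : (r : ℝ) = (r.num : ℝ) / (r.den : ℝ) := by exact_mod_cast (Rat.num_div_den r).symm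
  rw [e1, div_eq_div_iff hden.ne' h3.ne'] at hr
  obtain ⟨p, hp⟩ : ∃ p : ℕ, r.num = p := ⟨r.num.toNat, by omega⟩
  have hp0 : 0 < p := by omega
  rw [hp] at hr
  push_cast at hr
  have h4 : Real.log ((3 : ℝ) ^ p) = Real.log ((2 : ℝ) ^ r.den) := by
    rw [Real.log_pow, Real.log_pow, hr]
    ring
  have h5 : (3 : ℝ) ^ p = (2 : ℝ) ^ r.den :=
    Real.log_injOn_pos (by simp) (by simp) h4
  have h6 : (3 : ℕ) ^ p = 2 ^ r.den := by exact_mod_cast h5
  have h7 : Odd (3 ^ p) := Odd.pow (by decide)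
  have h8 : Even (2 ^ r.den) := by
    rw [Nat.even_pow]
    exact ⟨even_two, r.den_pos.ne'⟩
  rw [h6] at h7
  exact (Nat.not_odd_iff_even.mpr h8) h7

theorem exists_ab {Q : ℕ} (hQ : 1 ≤ Q) : ∃ a b : ℤ,
    Real.log 2 < Q * (a * Real.log 2 + b * Real.log 3) ∧
      Q * (a * Real.log 2 + b * Real.log 3) < Real.log 8 := by
  have hQ' : (0 : ℝ) < Q := by exact_mod_cast hQ
  have h3 : 0 < Real.log 3 := Real.log_pos (by norm_num)
  have h1 : Irrational ((Q * Real.log 2) / (Q * Real.log 3)) := by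
    rw [mul_div_mul_left _ _ hQ'.ne']
    exact irrational_log
  have h2 := dense_addSubgroupClosure_pair_iff.mpr h1
  have h4 : Real.log 2 < Real.log 8 := Real.log_lt_log (by norm_num) (by norm_num)
  obtain ⟨x, hx, hx1, hx2⟩ := h2.exists_between h4
  rw [SetLike.mem_coe, AddSubgroup.mem_closure_pair] at hx
  obtain ⟨a, b, hab⟩ := hx
  refine ⟨a, b, ?_, ?_⟩
  · have : Q * (a * Real.log 2 + b * Real.log 3) = x := by
      rw [← hab]; simp only [zsmul_eq_mul]; ring
    rw [this]; exact hx1
  · have : Q * (a * Real.log 2 + b * Real.log 3) = x := by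
      rw [← hab]; simp only [zsmul_eq_mul]; ring
    rw [this]; exact hx2

/-- Two coprime numbers composed of `2` and `3`, close to each other, congruent modulo `5 ^ B`. -/
theorem exists_YZ (B : ℕ) : ∃ Y Z : ℕ, 0 < Y ∧ 2 * Y < Z ∧ Z < 8 * Y ∧ Nat.Coprime Y Z ∧
    5 ^ B ∣ Z - Y ∧ (∀ p : ℕ, p.Prime → p ∣ Y * Z → p ∣ 6) := by
  set Q := Nat.totient (5 ^ B) with hQdef
  have hQ : 1 ≤ Q := Nat.totient_pos.mpr (by positivity)
  obtain ⟨a, b, hab1, hab2⟩ := exists_ab hQ
  set z := 2 ^ a.toNat * 3 ^ b.toNat with hz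
  set y := 2 ^ (-a).toNat * 3 ^ (-b).toNat with hy
  have hz0 : 0 < z := by positivity
  have hy0 : 0 < y := by positivity
  have hlog : Real.log ((z : ℝ) ^ Q) - Real.log ((y : ℝ) ^ Q) =
      Q * (a * Real.log 2 + b * Real.log 3) := by
    have ea : ((a.toNat : ℕ) : ℝ) - (((-a).toNat : ℕ) : ℝ) = a := by
      have : (a.toNat : ℤ) - ((-a).toNat : ℤ) = a := by omega
      exact_mod_cast this
    have eb : ((b.toNat : ℕ) : ℝ) - (((-b).toNat : ℕ) : ℝ) = b := by
      have : (b.toNat : ℤ) - ((-b).toNat : ℤ) = b := by omega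
      exact_mod_cast this
    rw [Real.log_pow, Real.log_pow, hz, hy]
    push_cast
    rw [Real.log_mul (by positivity) (by positivity), Real.log_mul (by positivity) (by positivity),
      Real.log_pow, Real.log_pow, Real.log_pow, Real.log_pow]
    rw [← ea, ← eb]
    ring
  have hzQ : (0 : ℝ) < (z : ℝ) ^ Q := by positivity
  have hyQ : (0 : ℝ) < (y : ℝ) ^ Q := by positivity
  have hlt1 : 2 * y ^ Q < z ^ Q := by
    have h1 : Real.log (2 * (y : ℝ) ^ Q) < Real.log ((z : ℝ) ^ Q) := by
      rw [Real.log_mul (by norm_num) hyQ.ne']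
      linarith
    have h2 := (Real.log_lt_log_iff (by positivity) hzQ).mp h1
    exact_mod_cast h2
  have hlt2 : z ^ Q < 8 * y ^ Q := by
    have h1 : Real.log ((z : ℝ) ^ Q) < Real.log (8 * (y : ℝ) ^ Q) := by
      rw [Real.log_mul (by norm_num) hyQ.ne']
      linarith
    have h2 := (Real.log_lt_log_iff hzQ (by positivity)).mp h1
    exact_mod_cast h2
  have hcop : Nat.Coprime y z := by
    have h23 : Nat.Coprime 2 3 := by norm_num
    rw [hy, hz]
    apply Nat.Coprime.mul_left
    · apply Nat.Coprime.mul_right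
      · rcases le_total 0 a with h | h
        · have : (-a).toNat = 0 := by omega
          rw [this, pow_zero]; exact Nat.coprime_one_left _
        · have : a.toNat = 0 := by omega
          rw [this, pow_zero]; exact Nat.coprime_one_right _
      · exact Nat.Coprime.pow _ _ h23
    · apply Nat.Coprime.mul_right
      · exact Nat.Coprime.pow _ _ h23.symm
      · rcases le_total 0 b with h | h
        · have : (-b).toNat = 0 := by omega
          rw [this, pow_zero]; exact Nat.coprime_one_left _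
        · have : b.toNat = 0 := by omega
          rw [this, pow_zero]; exact Nat.coprime_one_right _
  have h5 : ∀ i j : ℕ, Nat.Coprime (2 ^ i * 3 ^ j) (5 ^ B) := by
    intro i j
    exact Nat.Coprime.mul_left (Nat.Coprime.pow _ _ (by norm_num))
      (Nat.Coprime.pow _ _ (by norm_num))
  refine ⟨y ^ Q, z ^ Q, by positivity, hlt1, hlt2, Nat.Coprime.pow _ _ hcop, ?_, ?_⟩
  · have h1 : z ^ Q ≡ 1 [MOD 5 ^ B] := Nat.ModEq.pow_totient (h5 _ _)
    have h2 : y ^ Q ≡ 1 [MOD 5 ^ B] := Nat.ModEq.pow_totient (h5 _ _)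
    exact (Nat.modEq_iff_dvd' (by omega)).mp (h2.trans h1.symm)
  · intro p hp hdvd
    have h1 : p ∣ y ∨ p ∣ z := by
      rcases (Nat.Prime.dvd_mul hp).mp hdvd with h | h
      · exact Or.inl (hp.dvd_of_dvd_pow h)
      · exact Or.inr (hp.dvd_of_dvd_pow h)
    have h6 : ∀ i j : ℕ, p ∣ 2 ^ i * 3 ^ j → p ∣ 6 := by
      intro i j h
      rcases (Nat.Prime.dvd_mul hp).mp h with h | h
      · exact (hp.dvd_of_dvd_pow h).trans (by norm_num)
      · exact (hp.dvd_of_dvd_pow h).trans (by norm_num)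
    rcases h1 with h | h
    · exact h6 _ _ h
    · exact h6 _ _ h

/-- The numbers used in the construction. -/
theorem exists_num (j B : ℕ) (hj : 5 ≤ j) : ∃ Y T w : ℕ, 0 < Y ∧ 0 < T ∧ 0 < w ∧
    Nat.Coprime Y T ∧ Squarefree w ∧ (∀ p : ℕ, p.Prime → p ∣ w → j < p) ∧
    (∀ p : ℕ, p.Prime → p ∣ w → p ∣ T) ∧
    (∀ p : ℕ, p.Prime → p ∣ Y * (T * (Y + T)) → p ∣ 6 * j.factorial * w) ∧
    w * 5 ^ B ≤ T ∧ T ≤ 7 * Y := by
  obtain ⟨Y, Z, hY, h2, h8, hcop, h5, h6⟩ := exists_YZ B
  set T := Z - Y with hT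
  have hZ : Y + T = Z := by omega
  have hT0 : 0 < T := by omega
  set w := ∏ p ∈ T.primeFactors.filter (fun p => j < p), p with hw
  have hwmem : ∀ p : ℕ, p.Prime → (p ∣ w ↔ p ∣ T ∧ j < p) := by
    intro p hp
    rw [hw, Prime.dvd_finsetProd_iff hp.prime]
    constructor
    · rintro ⟨q, hq, hpq⟩
      rw [Finset.mem_filter, Nat.mem_primeFactors] at hq
      have : p = q := (Nat.prime_dvd_prime_iff_eq hp hq.1.1).mp hpq
      rw [this]
      exact ⟨hq.1.2.1, hq.2⟩
    · rintro ⟨h, h'⟩
      exact ⟨p, by rw [Finset.mem_filter, Nat.mem_primeFactors]; exact ⟨⟨hp, h, hT0.ne'⟩, h'⟩,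
        dvd_rfl⟩
  have hw0 : 0 < w := Finset.prod_pos fun p hp => by
    rw [Finset.mem_filter, Nat.mem_primeFactors] at hp
    exact hp.1.1.pos
  have hwT : w ∣ T := (Finset.prod_dvd_prod_of_subset _ _ _ (Finset.filter_subset _ _)).trans
    (Nat.prod_primeFactors_dvd T)
  have hsq : Squarefree w := by
    have h1 : Squarefree (∏ p ∈ T.primeFactors, p) := by
      rw [Nat.squarefree_iff_prime_squarefree]
      intro q hq hdvd
      have h2 : (∏ p ∈ T.primeFactors, p).factorization q = 1 ∨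
          (∏ p ∈ T.primeFactors, p).factorization q = 0 := by
        rw [Nat.factorization_prod (fun p hp => (Nat.prime_of_mem_primeFactors hp).ne_zero)]
        rw [Finsupp.finsetSum_apply]
        by_cases hqT : q ∈ T.primeFactors
        · left
          rw [Finset.sum_eq_single q]
          · exact hq.factorization_self
          · intro r hr hrq
            exact Nat.factorization_eq_zero_of_not_dvd fun h =>
              hrq ((Nat.prime_dvd_prime_iff_eq hq (Nat.prime_of_mem_primeFactors hr)).mp h).symm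
          · intro h; exact absurd hqT h
        · right
          apply Finset.sum_eq_zero
          intro r hr
          exact Nat.factorization_eq_zero_of_not_dvd fun h => hqT (by
            rw [(Nat.prime_dvd_prime_iff_eq hq (Nat.prime_of_mem_primeFactors hr)).mp h]
            exact hr)
      have h3 : 2 ≤ (∏ p ∈ T.primeFactors, p).factorization q := by
        rw [← sq] at hdvd
        exact (hq.pow_dvd_iff_le_factorization (Finset.prod_pos fun p hp =>
          (Nat.prime_of_mem_primeFactors hp).pos).ne').mp hdvd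
      omega
    exact h1.squarefree_of_dvd (Finset.prod_dvd_prod_of_subset _ _ _ (Finset.filter_subset _ _))
  refine ⟨Y, T, w, hY, hT0, hw0, ?_, hsq, fun p hp h => ((hwmem p hp).mp h).2,
    fun p hp h => ((hwmem p hp).mp h).1, ?_, ?_, by omega⟩
  · rw [← hZ] at hcop
    rwa [Nat.coprime_self_add_right] at hcop
  · intro p hp h
    rw [hZ] at h
    rcases (Nat.Prime.dvd_mul hp).mp h with h | h
    · exact ((h6 p hp (h.mul_right _)).mul_right _).mul_right _
    · rcases (Nat.Prime.dvd_mul hp).mp h with h | h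
      · by_cases hpj : j < p
        · exact ((hwmem p hp).mpr ⟨h, hpj⟩).mul_left _
        · exact ((hp.dvd_factorial.mpr (by omega)).mul_left _).mul_right _
      · exact ((h6 p hp (h.mul_left _)).mul_right _).mul_right _
  · have hc5 : Nat.Coprime w (5 ^ B) := by
      apply Nat.Coprime.pow_right
      rw [Nat.coprime_comm, Nat.Prime.coprime_iff_not_dvd (by norm_num)]
      intro h
      have := ((hwmem 5 (by norm_num)).mp h).2
      omega
    exact Nat.le_of_dvd hT0 (Nat.Coprime.mul_dvd_of_dvd_of_dvd hc5 hwT h5)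

end Pool.Agent.Y678.SZ
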