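import Pool.Agent.Y678.SZ.Glob
import Pool.Agent.Y678.SZ.Num

namespace Pool.Agent.Y678.SZ

open Polynomial Pool.Agent.W318 Finset NumberField IsDedekindDomain WithZero Filter

/-- The integral form. -/
noncomputable def frmZ (n Y T w : ℕ) : ℤ[X] :=
  C ((w : ℤ) * (Y * ((w : ℤ) ^ (n / 2)) ^ 2)) * X ^ (n + n) +
    C ((w : ℤ) * ((2 * Y + 4 * T) * (w : ℤ) ^ (n / 2))) * X ^ n + C ((w : ℤ) * Y)

theorem map_frmZ (K : Type) [Field K] (n Y T w : ℕ) :
    (frmZ n Y T w).map (Int.castRingHom K) = frm n (Y : K) T w := by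
  have e : ∀ z : ℤ, (C z : ℤ[X]).map (Int.castRingHom K) = C (z : K) := fun z => by
    rw [Polynomial.map_C]; rfl
  unfold frmZ frm tri
  rw [Polynomial.map_add, Polynomial.map_add, Polynomial.map_mul, Polynomial.map_mul,
    Polynomial.map_pow, Polynomial.map_pow, Polynomial.map_X, e, e, e]
  push_cast
  rfl

/-- The exponent `κ(g) + 4 g + 2`. -/
def kap0 (g : ℕ) : ℕ := kap g + (4 * g + 2)

theorem DD_lower {g Y T w E : ℕ} (h1 : w * E ≤ T) (h2 : T ≤ 7 * Y) :
    w ^ kap0 g * E ≤ 7 ^ (2 * g) * DD g Y T w := by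
  have e1 : T ^ (2 * g) ≤ 7 ^ (2 * g) * Y ^ (2 * g) := by
    rw [← mul_pow]; exact Nat.pow_le_pow_left h2 _
  have e2 : T ^ (2 * g + 2) ≤ (16 * (T * (Y + T))) ^ (g + 1) := by
    have : T ^ (2 * g + 2) = (T * T) ^ (g + 1) := by
      rw [← sq, ← pow_mul]
      congr 1
    rw [this]
    apply Nat.pow_le_pow_left
    nlinarith [Nat.zero_le Y, Nat.zero_le T, Nat.zero_le (T * Y), Nat.zero_le (T * T)]
  have e3 : 1 ≤ (g + 1) ^ (g + 1 + (g + 1)) := Nat.one_le_pow _ _ (by omega)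
  have e4 : (w * E) ^ (4 * g + 2) ≤ T ^ (4 * g + 2) := Nat.pow_le_pow_left h1 _
  have e5 : E ≤ E ^ (4 * g + 2) := Nat.le_self_pow (by omega) E
  calc w ^ kap0 g * E = w ^ kap g * (w ^ (4 * g + 2) * E) := by
        rw [kap0, pow_add]; ring
    _ ≤ w ^ kap g * (w ^ (4 * g + 2) * E ^ (4 * g + 2)) := by gcongr
    _ = w ^ kap g * (w * E) ^ (4 * g + 2) := by rw [mul_pow]
    _ ≤ w ^ kap g * T ^ (4 * g + 2) := by gcongr
    _ = 1 * w ^ kap g * (T ^ (2 * g) * T ^ (2 * g + 2)) := by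
        rw [← pow_add]; ring_nf
    _ ≤ (g + 1) ^ (g + 1 + (g + 1)) * w ^ kap g *
        ((7 ^ (2 * g) * Y ^ (2 * g)) * (16 * (T * (Y + T))) ^ (g + 1)) := by gcongr
    _ = 7 ^ (2 * g) * DD g Y T w := by unfold DD; ring

theorem exists_prime_of_val {K : Type} [Field K] [NumberField K] (v : HeightOneSpectrum (𝓞 K))
    {m : ℕ} (hm : m ≠ 0) (h : v.valuation K (m : K) < 1) :
    ∃ p : ℕ, p.Prime ∧ p ∣ m ∧ v.valuation K (p : K) < 1 := by
  by_contra hcon
  push Not at hcon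
  have h1 : ∀ p ∈ m.primeFactorsList, v.valuation K (p : K) = 1 := by
    intro p hp
    exact le_antisymm (val_nat_le_one v p) (hcon p (Nat.prime_of_mem_primeFactorsList hp)
      (Nat.dvd_of_mem_primeFactorsList hp))
  have h2 : v.valuation K (m : K) = 1 := by
    rw [← Nat.prod_primeFactorsList hm]
    have : ∀ l : List ℕ, (∀ p ∈ l, v.valuation K (p : K) = 1) →
        v.valuation K ((l.prod : ℕ) : K) = 1 := by
      intro l
      induction l with
      | nil => intro _; simp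
      | cons a l ih =>
        intro hl
        rw [List.prod_cons, Nat.cast_mul, map_mul, hl a (by simp),
          ih fun p hp => hl p (by simp [hp]), mul_one]
    exact this _ h1
  rw [h2] at h
  exact lt_irrefl _ h

theorem val_lt_of_dvd {K : Type} [Field K] [NumberField K] (v : HeightOneSpectrum (𝓞 K))
    {p m : ℕ} (hp : v.valuation K (p : K) < 1) (hd : p ∣ m) : v.valuation K (m : K) < 1 := by
  obtain ⟨u, rfl⟩ := hd
  rw [Nat.cast_mul, map_mul]
  exact (mul_le_of_le_one_right' (val_nat_le_one v u)).trans_lt hp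

/-- The comparison over one number field. -/
theorem compare {K : Type} [Field K] [NumberField K] {g : ℕ} (hg : 2 ≤ g) {Y T w j E : ℕ}
    (hY : 0 < Y) (hT : 0 < T) (hw : 0 < w) (hcop : Nat.Coprime Y T) (hsq : Squarefree w)
    (hwj : ∀ p : ℕ, p.Prime → p ∣ w → j < p) (hwT : ∀ p : ℕ, p.Prime → p ∣ w → p ∣ T)
    (hbad : ∀ p : ℕ, p.Prime → p ∣ Y * (T * (Y + T)) → p ∣ 6 * j.factorial * w)
    (h1 : w * E ≤ T) (h2 : T ≤ 7 * Y) (hj : (discr K).natAbs ≤ j)
    (hEj : j.factorial ^ kap0 g * j ≤ E) :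
    j ^ Module.finrank ℚ K * badNorm g (frm (g + 1) (Y : K) T w) ^ kap0 g ≤
      ((6 * (g + 1)) ^ kap0 g * 7 ^ (2 * g) * C0 g) ^ Module.finrank ℚ K *
        discNorm g (frm (g + 1) (Y : K) T w) := by
  have hF := isHyp_frm (K := K) (g := g) hY hT hw
  have hDD0 : DD g Y T w ≠ 0 := by unfold DD; positivity
  have hC0 : C0 g ≠ 0 := by unfold C0; positivity
  have hm0 : 6 * (g + 1) * j.factorial * w ≠ 0 := by positivity
  -- the lower bound for the discriminant
  have hlow := disc_lower hF hDD0 hC0 fun v => by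
    refine place_ineq hg hY hT hw hcop v ?_
    rcases val_squarefree hsq (fun p hp hpd => lt_of_le_of_lt hj (hwj p hp hpd)) v with h | h
    · exact Or.inl h
    · refine Or.inr ⟨h, ?_⟩
      have hlt : v.valuation K (w : K) < 1 := by
        rw [h, ← exp_zero, exp_lt_exp]; norm_num
      obtain ⟨p, hp, hpw, hpv⟩ := exists_prime_of_val v hw.ne' hlt
      have hTv := val_lt_of_dvd v hpv (hwT p hp hpw)
      exact (val_one_or hcop v).resolve_right hTv.ne
  -- the upper bound for the bad places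
  have hup := bad_upper hF hm0 fun v hv => by
    have h3 := bad_place hY hT hw v hv
    obtain ⟨p, hp, hpd, hpv⟩ := exists_prime_of_val v (by positivity) h3
    refine val_lt_of_dvd v hpv ?_
    have h6 : 6 * j.factorial * w ∣ 6 * (g + 1) * j.factorial * w :=
      ⟨g + 1, by ring⟩
    have h6' : (6 : ℕ) ∣ 6 * (g + 1) * j.factorial * w := ⟨(g + 1) * j.factorial * w, by ring⟩
    have hYT : p ∣ Y ∨ p ∣ T ∨ p ∣ Y + T → p ∣ 6 * (g + 1) * j.factorial * w := by
      intro h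
      refine (hbad p hp ?_).trans h6
      rcases h with h | h | h
      · exact h.mul_right _
      · exact (h.mul_right _).mul_left _
      · exact (h.mul_left _).mul_left _
    unfold DD at hpd
    rcases (Nat.Prime.dvd_mul hp).mp hpd with h | h
    · exact (h.trans (by norm_num : (2 : ℕ) ∣ 6)).trans h6'
    rcases (Nat.Prime.dvd_mul hp).mp h with h | h
    · rcases (Nat.Prime.dvd_mul hp).mp h with h | h
      · rcases (Nat.Prime.dvd_mul hp).mp h with h | h
        · exact (hp.dvd_of_dvd_pow h).trans ⟨6 * j.factorial * w, by ring⟩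
        · exact (hp.dvd_of_dvd_pow h).trans ⟨6 * (g + 1) * j.factorial, by ring⟩
      · exact hYT (Or.inl (hp.dvd_of_dvd_pow h))
    · rcases (Nat.Prime.dvd_mul hp).mp (hp.dvd_of_dvd_pow h) with h | h
      · have : p ∣ 2 := hp.dvd_of_dvd_pow (show p ∣ 2 ^ 4 from h)
        exact (this.trans (by norm_num : (2 : ℕ) ∣ 6)).trans h6'
      · rcases (Nat.Prime.dvd_mul hp).mp h with h | h
        · exact hYT (Or.inr (Or.inl h))
        · exact hYT (Or.inr (Or.inr h))
  set d := Module.finrank ℚ K with hd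
  set Δ := discNorm g (frm (g + 1) (Y : K) T w) with hΔ
  set N := badNorm g (frm (g + 1) (Y : K) T w) with hN
  have hDD := DD_lower (g := g) h1 h2
  calc j ^ d * N ^ kap0 g ≤ j ^ d * ((6 * (g + 1) * j.factorial * w) ^ d) ^ kap0 g := by gcongr
    _ = ((6 * (g + 1)) ^ kap0 g * (w ^ kap0 g * (j.factorial ^ kap0 g * j))) ^ d := by
        rw [← pow_mul, mul_comm d (kap0 g), pow_mul, ← mul_pow]
        congr 1
        rw [mul_pow, mul_pow]
        ring
    _ ≤ ((6 * (g + 1)) ^ kap0 g * (w ^ kap0 g * E)) ^ d := by gcongr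
    _ ≤ ((6 * (g + 1)) ^ kap0 g * (7 ^ (2 * g) * DD g Y T w)) ^ d := by gcongr
    _ = ((6 * (g + 1)) ^ kap0 g * 7 ^ (2 * g)) ^ d * DD g Y T w ^ d := by
        rw [← mul_pow]; ring_nf
    _ ≤ ((6 * (g + 1)) ^ kap0 g * 7 ^ (2 * g)) ^ d * (C0 g ^ d * Δ) := by gcongr
    _ = _ := by rw [mul_pow _ (C0 g)]; ring

/-- **Main theorem.** -/
theorem main (g : ℕ) (hg : 2 ≤ g) : ∃ f : ℕ → ℤ[X], ∀ (K : Type) [Field K] [NumberField K],
    (∀ j, IsHyp g ((f j).map (Int.castRingHom K))) ∧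
      ∀ c κ : ℝ, κ ≤ (kap g : ℝ) + (4 * g + 2) → ∀ᶠ j in atTop,
        c * (badNorm g ((f j).map (Int.castRingHom K)) : ℝ) ^ κ <
          (discNorm g ((f j).map (Int.castRingHom K)) : ℝ) := by
  choose Y T w hY hT hw hcop hsq hwj hwT hbad h1 h2 using fun j : ℕ =>
    exists_num (j + 5) ((j + 5).factorial ^ kap0 g * (j + 5)) (by omega)
  refine ⟨fun j => frmZ (g + 1) (Y j) (T j) (w j), fun K _ _ => ⟨fun j => ?_, ?_⟩⟩
  · rw [map_frmZ]
    exact isHyp_frm (hY j) (hT j) (hw j)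
  · intro c κ hκ
    set d := Module.finrank ℚ K with hd
    have hd1 : 1 ≤ d := Module.finrank_pos
    set A : ℝ := ((((6 * (g + 1)) ^ kap0 g * 7 ^ (2 * g) * C0 g) ^ d : ℕ) : ℝ) with hA
    have hA0 : 0 < A := by
      rw [hA]
      have : C0 g ≠ 0 := by unfold C0; positivity
      exact_mod_cast pow_pos (by positivity) d
    have hev1 : ∀ᶠ j : ℕ in atTop, |c| * A < (j : ℝ) :=
      tendsto_natCast_atTop_atTop.eventually_gt_atTop _
    filter_upwards [hev1, eventually_ge_atTop (discr K).natAbs] with j hj1 hj2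
    rw [map_frmZ]
    have hF := isHyp_frm (K := K) (g := g) (hY j) (hT j) (hw j)
    have hM1 := one_le_badNorm hF
    have hcmp := compare (K := K) hg (hY j) (hT j) (hw j) (hcop j) (hsq j) (hwj j) (hwT j)
      (hbad j) (h1 j) (h2 j) (by omega)
      (Nat.lt_pow_self (by norm_num : 1 < 5)).le
    rw [← hd] at hcmp
    set N := badNorm g (frm (g + 1) (Y j : K) (T j) (w j)) with hN
    set Δ := discNorm g (frm (g + 1) (Y j : K) (T j) (w j)) with hΔ
    have hN1 : (1 : ℝ) ≤ (N : ℝ) := by exact_mod_cast hM1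
    have hNpos : (0 : ℝ) < (N : ℝ) ^ kap0 g := by positivity
    have hcmp' : (j : ℝ) * (N : ℝ) ^ kap0 g ≤ A * Δ := by
      have h3 : j * N ^ kap0 g ≤ (j + 5) ^ d * N ^ kap0 g := by
        apply Nat.mul_le_mul_right
        calc j ≤ j + 5 := by omega
          _ = (j + 5) ^ 1 := (pow_one _).symm
          _ ≤ (j + 5) ^ d := Nat.pow_le_pow_right (by omega) hd1
      have h4 := h3.trans hcmp
      rw [hA]
      exact_mod_cast h4
    have hpow : (N : ℝ) ^ κ ≤ (N : ℝ) ^ kap0 g := by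
      rw [← Real.rpow_natCast]
      apply Real.rpow_le_rpow_of_exponent_le hN1
      rw [kap0]
      push_cast
      linarith
    have h5 : c * (N : ℝ) ^ κ ≤ |c| * (N : ℝ) ^ kap0 g := by
      calc c * (N : ℝ) ^ κ ≤ |c| * (N : ℝ) ^ κ :=
            mul_le_mul_of_nonneg_right (le_abs_self c) (by positivity)
        _ ≤ _ := mul_le_mul_of_nonneg_left hpow (abs_nonneg c)
    refine h5.trans_lt ?_
    have h6 : A * (|c| * (N : ℝ) ^ kap0 g) < A * Δ := by
      calc A * (|c| * (N : ℝ) ^ kap0 g) = (|c| * A) * (N : ℝ) ^ kap0 g := by ring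
        _ < (j : ℝ) * (N : ℝ) ^ kap0 g := mul_lt_mul_of_pos_right hj1 hNpos
        _ ≤ A * Δ := hcmp'
    exact lt_of_mul_lt_mul_left h6 hA0.le

end Pool.Agent.Y678.SZ
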