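import Pool.Agent.Y678.SZ.Local1
import Pool.Agent.Y678.SZ.Local2

namespace Pool.Agent.Y678.SZ

open Polynomial Pool.Agent.W318 Finset NumberField IsDedekindDomain WithZero

theorem map_tri {k k' : Type*} [Field k] [Field k'] (f : k →+* k') (n : ℕ) (a b c : k) :
    (tri n a b c).map f = tri n (f a) (f b) (f c) := by
  simp [tri]

section

variable {K : Type} [Field K] [NumberField K]

theorem exists_compat (G : K[X]) (v : HeightOneSpectrum (𝓞 K)) :
    ∃ (M : Type) (_ : Field M) (_ : NumberField M) (_ : Algebra K M)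
      (W : HeightOneSpectrum (𝓞 M)) (E : ℕ), Compat v W E ∧
      (G.map (algebraMap K M)).Splits := by
  obtain ⟨M, _, _, _, _, _, _, hsplit⟩ := exists_bigField (K := K) (L := K) G
  obtain ⟨W, hW⟩ := exists_prime_over (M := M) v
  refine ⟨M, inferInstance, inferInstance, inferInstance, W,
    v.asIdeal.ramificationIdx' W.asIdeal, ⟨ram_pos v W, fun x k hx => ?_⟩, hsplit⟩
  rw [absW_exp W (absW_liesOver v W hx)]
  congr 1
  ring

theorem exists_data {n : ℕ} (hn : 2 ≤ n) {S Y T : K} (hS : S ≠ 0) (hY : Y ≠ 0)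
    (v : HeightOneSpectrum (𝓞 K)) :
    ∃ (M : Type) (_ : Field M) (_ : NumberField M) (_ : Algebra K M)
      (W : HeightOneSpectrum (𝓞 M)) (E : ℕ) (ζ s θ : M), Compat v W E ∧
      IsPrimitiveRoot ζ n ∧ s ^ n = algebraMap K M S ∧
      algebraMap K M Y * θ ^ (n + n) +
        (2 * algebraMap K M Y + 4 * algebraMap K M T) * θ ^ n + algebraMap K M Y = 0 := by
  have h1 : (cyclotomic n K) ≠ 0 := cyclotomic_ne_zero n K
  have hd2 : (X ^ n - C S : K[X]).natDegree = n := natDegree_X_pow_sub_C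
  have h2 : (X ^ n - C S : K[X]) ≠ 0 := by
    intro h; rw [h, natDegree_zero] at hd2; omega
  have hd3 : (tri n Y (2 * Y + 4 * T) Y).natDegree = n + n := natDegree_tri (by omega) hY
  have h3 : (tri n Y (2 * Y + 4 * T) Y) ≠ 0 := by
    intro h; rw [h, natDegree_zero] at hd3; omega
  have h0 : cyclotomic n K * (X ^ n - C S) * tri n Y (2 * Y + 4 * T) Y ≠ 0 :=
    mul_ne_zero (mul_ne_zero h1 h2) h3
  obtain ⟨M, _, _, _, W, E, hc, hsplit⟩ := exists_compat
    (cyclotomic n K * (X ^ n - C S) * tri n Y (2 * Y + 4 * T) Y) v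
  have h0' : (cyclotomic n K * (X ^ n - C S) * tri n Y (2 * Y + 4 * T) Y).map
      (algebraMap K M) ≠ 0 := by rwa [Ne, Polynomial.map_eq_zero]
  have hs1 : ((cyclotomic n K).map (algebraMap K M)).Splits :=
    hsplit.of_dvd h0' (Polynomial.map_dvd _ ((dvd_mul_right _ _).mul_right _))
  have hs2 : ((X ^ n - C S : K[X]).map (algebraMap K M)).Splits :=
    hsplit.of_dvd h0' (Polynomial.map_dvd _ ((dvd_mul_left _ _).mul_right _))
  have hs3 : ((tri n Y (2 * Y + 4 * T) Y).map (algebraMap K M)).Splits :=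
    hsplit.of_dvd h0' (Polynomial.map_dvd _ (dvd_mul_left _ _))
  have key : ∀ p : M[X], p.natDegree ≠ 0 → p.degree ≠ 0 := fun p h h' =>
    h (natDegree_eq_of_degree_eq_some (by simpa using h'))
  obtain ⟨ζ, hζ⟩ := hs1.exists_eval_eq_zero (key _ (by
    rw [natDegree_map, natDegree_cyclotomic]
    exact (Nat.totient_pos.mpr (by omega)).ne'))
  obtain ⟨s, hs⟩ := hs2.exists_eval_eq_zero (key _ (by
    rw [natDegree_map, hd2]; omega))
  obtain ⟨θ, hθ⟩ := hs3.exists_eval_eq_zero (key _ (by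
    rw [natDegree_map, hd3]; omega))
  refine ⟨M, inferInstance, inferInstance, inferInstance, W, E, ζ, s, θ, hc, ?_, ?_, ?_⟩
  · rw [map_cyclotomic] at hζ
    have : NeZero ((n : ℕ) : M) := ⟨Nat.cast_ne_zero.mpr (by omega)⟩
    exact isRoot_cyclotomic_iff.mp hζ
  · simp only [Polynomial.map_sub, Polynomial.map_pow, Polynomial.map_X, Polynomial.map_C,
      eval_sub, eval_pow, eval_X, eval_C] at hs
    linear_combination hs
  · rw [map_tri] at hθ
    simp only [tri, eval_add, eval_mul, eval_C, eval_pow, eval_X, map_add, map_mul,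
      map_ofNat, eval_ofNat] at hθ
    exact hθ

/-- How the discriminant changes under a substitution. -/
theorem disc_act_val {h : ℕ} (hh : 2 ≤ h) {F : K[X]} (hF : GoodForm h F)
    (v : HeightOneSpectrum (𝓞 K)) {a b c d l : K} (hdet : a * d - b * c ≠ 0) (hl : l ≠ 0) :
    v.valuation K (discN (h + h) (C (l ^ 2) * act (h + h) a b c d F)) =
      v.valuation K ((l ^ 2 * (a * d - b * c) ^ h) ^ (2 * (h + h - 1)) * discN (h + h) F) := by
  obtain ⟨M, _, _, _, W, E, hc, hsplit⟩ := exists_compat F v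
  obtain ⟨u, α, β, hu, huni, hne, hfac⟩ := exists_factor_form (absW W) (by omega : 1 ≤ h)
    hF.2 hF.1 hsplit
  set φ := algebraMap K M with hφ
  have hdet' : φ a * φ d - φ b * φ c ≠ 0 := by
    rw [← map_mul, ← map_mul, ← map_sub, Ne, map_eq_zero]
    exact hdet
  have hl' : φ l ≠ 0 := by rwa [Ne, map_eq_zero]
  have h1 := disc_sq_act (A := absW W) hu hne hh hdet' hl'
  have h2 : C (φ l ^ 2) * act (h + h) (φ a) (φ b) (φ c) (φ d)
      (C u * ∏ i, (C (α i) * X + C (β i))) = (C (l ^ 2) * act (h + h) a b c d F).map φ := by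
    rw [Polynomial.map_mul, Polynomial.map_C, map_pow φ, act_map, hfac]
  rw [h2, ← hfac, discN_map, discN_map, ← map_pow, ← map_pow (absW W)] at h1
  have h3 : absW W (φ (discN (h + h) (C (l ^ 2) * act (h + h) a b c d F))) =
      absW W (φ ((l ^ 2 * (a * d - b * c) ^ h) ^ (2 * (h + h - 1)) * discN (h + h) F)) := by
    rw [h1]
    simp only [map_mul, map_pow, map_sub]
  exact le_antisymm ((hc.le_iff _ _).mp h3.le) ((hc.le_iff _ _).mp h3.ge)

end

end Pool.Agent.Y678.SZ
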